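import Mathlib

/-!
# A locally connected continuum without property (F)

The countably infinite product of circles is a compact, connected, locally connected metric space.
Adding one half in the `n`-th coordinate is an involution without fixed points; all of its iterates
move points by at most `2⁻ⁿ`. So there is no constant `B > 0` such that every map with iterate
displacement below `B` has a fixed point.
-/

set_option autoImplicit false

namespace Pool.Agent.Results.MP_98cb65_gt.InfiniteTorus

/-- The map `T` has iterate displacement below `B`: `d (T^ν x, x) < B` for all `x` and `ν ≥ 1`. -/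
def IterateDisplacementBelow {X : Type} [MetricSpace X] (T : X → X) (B : ℝ) : Prop :=
  ∀ x : X, ∀ ν : ℕ, 1 ≤ ν → dist (T^[ν] x) x < B

/-- Property (F): there is a constant `B > 0` such that every continuous self-map with iterate
displacement below `B` has a fixed point. -/
def PropertyF (X : Type) [MetricSpace X] : Prop :=
  ∃ B : ℝ, 0 < B ∧ ∀ T : X → X, Continuous T → IterateDisplacementBelow T B → ∃ x, T x = x

/-- The infinite-dimensional torus. -/
abbrev Torus : Type := ℕ → AddCircle (1 : ℝ)

/-- The metric `d (x, y) = ∑ₙ min (2⁻ⁿ, d (xₙ, yₙ))`, which induces the product topology. -/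
noncomputable instance : MetricSpace Torus := PiCountable.metricSpace

/-- Translation by one half in the `n`-th coordinate. -/
noncomputable def tr (n : ℕ) (x : Torus) : Torus := x + Pi.single n (((1 / 2 : ℝ) : AddCircle (1 : ℝ)))

theorem half_add_half : (((1 / 2 : ℝ) : AddCircle (1 : ℝ))) + (((1 / 2 : ℝ) : AddCircle (1 : ℝ))) = 0 := by
  rw [← AddCircle.coe_add]
  norm_num

theorem half_ne_zero : (((1 / 2 : ℝ) : AddCircle (1 : ℝ))) ≠ 0 := by
  intro h
  rw [AddCircle.coe_eq_zero_iff] at h
  obtain ⟨n, hn⟩ := h
  rw [zsmul_eq_mul, mul_one] at hn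
  have h2 : (2 : ℝ) * n = 1 := by rw [hn]; norm_num
  have h3 : (2 : ℤ) * n = 1 := by exact_mod_cast h2
  omega

theorem tr_tr (n : ℕ) (x : Torus) : tr n (tr n x) = x := by
  unfold tr
  rw [add_assoc, ← Pi.single_add, half_add_half, Pi.single_zero, add_zero]

theorem tr_ne (n : ℕ) (x : Torus) : tr n x ≠ x := by
  intro h
  have h1 := congrFun h n
  simp only [tr, Pi.add_apply, Pi.single_eq_same, add_eq_left] at h1
  exact half_ne_zero h1

theorem dist_tr (n : ℕ) (x : Torus) : dist (tr n x) x ≤ (2⁻¹ : ℝ) ^ n := by
  have h0 : dist (tr n x) x = ∑' i, min ((2⁻¹ : ℝ) ^ i) (dist (tr n x i) (x i)) := rfl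
  rw [h0, tsum_eq_single n]
  · exact min_le_left _ _
  · intro i hi
    have : tr n x i = x i := by
      simp [tr, hi]
    rw [this, dist_self]
    exact min_eq_right (by positivity)

theorem iterate_tr (n ν : ℕ) (x : Torus) : (tr n)^[ν] x = x ∨ (tr n)^[ν] x = tr n x := by
  induction ν with
  | zero => exact Or.inl rfl
  | succ k ih =>
    rw [Function.iterate_succ_apply']
    rcases ih with h | h
    · rw [h]; exact Or.inr rfl
    · rw [h, tr_tr]; exact Or.inl rfl

/-- There is a locally connected continuum without property (F). -/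
theorem result : ∃ (X : Type) (_ : MetricSpace X),
    CompactSpace X ∧ ConnectedSpace X ∧ LocallyConnectedSpace X ∧ ¬ PropertyF X := by
  refine ⟨Torus, inferInstance, ?_, ?_, ?_, ?_⟩
  · exact (inferInstance : CompactSpace (ℕ → AddCircle (1 : ℝ)))
  · exact (inferInstance : ConnectedSpace (ℕ → AddCircle (1 : ℝ)))
  · have hc : LocallyConnectedSpace (AddCircle (1 : ℝ)) :=
      (QuotientAddGroup.isOpenQuotientMap_mk (G := ℝ)
        (N := AddSubgroup.zmultiples (1 : ℝ))).isQuotientMap.isCoinducing.locallyConnectedSpace
    exact (inferInstance : LocallyConnectedSpace (ℕ → AddCircle (1 : ℝ)))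
  · rintro ⟨B, hB, h⟩
    obtain ⟨n, hn⟩ := exists_pow_lt_of_lt_one hB (by norm_num : (2⁻¹ : ℝ) < 1)
    obtain ⟨x, hx⟩ := h (tr n) (by
        have : Continuous (fun x : ℕ → AddCircle (1 : ℝ) =>
            x + Pi.single n (((1 / 2 : ℝ) : AddCircle (1 : ℝ)))) := continuous_add_const _
        exact this) (by
        intro x ν _
        rcases iterate_tr n ν x with h1 | h1
        · rw [h1, dist_self]; exact hB
        · rw [h1]; exact lt_of_le_of_lt (dist_tr n x) hn)
    exact tr_ne n x hx

end Pool.Agent.Results.MP_98cb65_gt.InfiniteTorus
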